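import Pool.Agent.Lib.MP_6bc78b_nt.MS.P2.Iface
import Pool.Agent.Lib.MP_6bc78b_nt.LS.PV
import Pool.Agent.Lib.MP_6bc78b_nt.LS.Decomp

/-! Project MS, Part II, module PVC: Polya-Vinogradov with a coprimality condition. -/

set_option autoImplicit false

namespace Pool.Agent.Lib.MP_6bc78b_nt.MS.P2.H14

open Pool.Agent.Lib.MP_6bc78b_nt.MS.P2

theorem pvc : PvcStatement := by
  intro q hq ψ hψ N e he
  have hB0 : 0 ≤ Real.sqrt q * (1 + Real.log q) := by
    have h1 : 0 ≤ Real.log q := Real.log_nonneg (by exact_mod_cast hq.le)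
    positivity
  have h1 : ∑ x ∈ (Finset.Icc 1 N).filter (fun x => Nat.Coprime x e), ψ (x : ZMod q)
      = ∑ g ∈ e.divisors, (ArithmeticFunction.moebius g : ℂ) *
          ∑ x ∈ (Finset.Icc 1 N).filter (fun x => g ∣ x), ψ (x : ZMod q) := by
    rw [Finset.sum_filter]
    have h2 : ∀ x : ℕ, (if Nat.Coprime x e then ψ (x : ZMod q) else 0)
        = ∑ g ∈ e.divisors, (ArithmeticFunction.moebius g : ℂ) *
          (if g ∣ x then ψ (x : ZMod q) else 0) := by
      intro x
      have h3 := Pool.Agent.Lib.MP_6bc78b_nt.LS.moebius_coprime x e he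
      have h4 : (if Nat.Coprime x e then ψ (x : ZMod q) else 0)
          = (if x.Coprime e then (1 : ℂ) else 0) * ψ (x : ZMod q) := by
        split_ifs <;> simp
      rw [h4, ← h3, Finset.sum_mul]
      refine Finset.sum_congr rfl fun g _ => ?_
      split_ifs <;> simp
    simp_rw [h2]
    rw [Finset.sum_comm]
    refine Finset.sum_congr rfl fun g _ => ?_
    rw [← Finset.mul_sum, Finset.sum_filter]
  have h5 : ∀ g ∈ e.divisors,
      ‖(ArithmeticFunction.moebius g : ℂ) *
        ∑ x ∈ (Finset.Icc 1 N).filter (fun x => g ∣ x), ψ (x : ZMod q)‖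
        ≤ Real.sqrt q * (1 + Real.log q) := by
    intro g hg
    have hg0 : 0 < g := Nat.pos_of_mem_divisors hg
    have h6 : ∑ x ∈ (Finset.Icc 1 N).filter (fun x => g ∣ x), ψ (x : ZMod q)
        = ψ (g : ZMod q) * ∑ y ∈ Finset.Icc 1 (N / g), ψ (y : ZMod q) := by
      rw [Finset.mul_sum]
      symm
      refine Finset.sum_bij (fun y _ => g * y) ?_ ?_ ?_ ?_
      · intro y hy
        rw [Finset.mem_Icc] at hy
        rw [Finset.mem_filter, Finset.mem_Icc]
        refine ⟨⟨?_, ?_⟩, dvd_mul_right _ _⟩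
        · exact Nat.mul_pos hg0 hy.1
        · calc g * y ≤ g * (N / g) := Nat.mul_le_mul_left _ hy.2
            _ ≤ N := Nat.mul_div_le N g
      · intro y _ z _ hyz
        exact Nat.eq_of_mul_eq_mul_left hg0 hyz
      · intro x hx
        rw [Finset.mem_filter, Finset.mem_Icc] at hx
        obtain ⟨⟨hx1, hx2⟩, y, rfl⟩ := hx
        refine ⟨y, ?_, rfl⟩
        rw [Finset.mem_Icc]
        refine ⟨?_, ?_⟩
        · exact Nat.pos_of_ne_zero (by rintro rfl; simp at hx1)
        · exact (Nat.le_div_iff_mul_le hg0).2 (by rw [mul_comm]; exact hx2)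
      · intro y _
        push_cast
        rw [map_mul]
    rw [h6, norm_mul, norm_mul]
    have h7 : ‖(ArithmeticFunction.moebius g : ℂ)‖ ≤ 1 := by
      have h8 : |ArithmeticFunction.moebius g| ≤ 1 := ArithmeticFunction.abs_moebius_le_one
      rw [Complex.norm_intCast]
      exact_mod_cast h8
    have h9 : ‖ψ (g : ZMod q)‖ ≤ 1 := DirichletCharacter.norm_le_one ψ _
    have h10 := Pool.Agent.Lib.MP_6bc78b_nt.LS.polya_vinogradov q hq ψ hψ (N / g)
    calc ‖(ArithmeticFunction.moebius g : ℂ)‖ *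
          (‖ψ (g : ZMod q)‖ * ‖∑ y ∈ Finset.Icc 1 (N / g), ψ (y : ZMod q)‖)
        ≤ 1 * (1 * (Real.sqrt q * (1 + Real.log q))) := by
          gcongr
      _ = Real.sqrt q * (1 + Real.log q) := by ring
  rw [h1]
  refine (norm_sum_le _ _).trans ?_
  refine (Finset.sum_le_sum h5).trans ?_
  rw [Finset.sum_const, nsmul_eq_mul]
  unfold dv
  exact le_refl _

end Pool.Agent.Lib.MP_6bc78b_nt.MS.P2.H14
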